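import Pool.Agent.X182.SF.RecS

/-!
# Countably many infinite sets are split by a single set
-/

set_option autoImplicit false

namespace Pool.Agent.X182.SF

open Set Cardinal Topology Filter MeasureTheory Pool.Agent.H3R3.Rigid Pool.Agent.X182.SH
open scoped ENNReal

lemma null_const {A : Set ℕ} (hA : A.Infinite) (b : Bool) :
    mu {x : C | ∀ n ∈ A, x n = b} = 0 := by
  have h1 : ∀ j : ℕ, mu {x : C | ∀ n ∈ A, x n = b} ≤ 2⁻¹ ^ j := by
    intro j
    obtain ⟨F, hFA, hF⟩ := hA.exists_subset_card_eq j
    have h2 : {x : C | ∀ n ∈ A, x n = b} ⊆ Set.pi (F : Set ℕ) (fun _ => ({b} : Set Bool)) := by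
      intro x hx n hn
      exact hx n (hFA hn)
    refine (measure_mono h2).trans ?_
    unfold mu
    rw [Measure.infinitePi_pi _ (fun i _ => measurableSet_singleton _)]
    simp [mB_singleton, hF]
  have h3 : Tendsto (fun k : ℕ => (2⁻¹ : ℝ≥0∞) ^ k) atTop (𝓝 0) :=
    ENNReal.tendsto_pow_atTop_nhds_zero_of_lt_one (by simp)
  exact le_antisymm (ge_of_tendsto' h3 h1) zero_le

lemma null_not_spl {r : C} (hr : {n | r n = true}.Infinite) : mu {x : C | ¬ Spl x r} = 0 := by
  have hk : ∀ k : ℕ, {n | r n = true ∧ k ≤ n}.Infinite := by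
    intro k hf
    refine hr ((hf.union (Set.finite_Iio k)).subset fun n hn => ?_)
    by_cases h : k ≤ n
    · exact Or.inl ⟨hn, h⟩
    · exact Or.inr (not_le.1 h)
  have hsub : {x : C | ¬ Spl x r} ⊆ (⋃ k : ℕ, {x : C | ∀ n ∈ {n | r n = true ∧ k ≤ n}, x n = false})
      ∪ ⋃ k : ℕ, {x : C | ∀ n ∈ {n | r n = true ∧ k ≤ n}, x n = true} := by
    intro x hx
    have hx' : ¬ ({n | r n = true ∧ x n = true}.Infinite ∧
        {n | r n = true ∧ x n = false}.Infinite) := hx
    rw [not_and_or, Set.not_infinite, Set.not_infinite] at hx'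
    rcases hx' with h | h
    · left
      obtain ⟨N, hN⟩ := h.bddAbove
      refine mem_iUnion.2 ⟨N + 1, fun n hn => ?_⟩
      by_contra hc
      have h2 : x n = true := by simpa using hc
      have h3 := hN (show n ∈ {n | r n = true ∧ x n = true} from ⟨hn.1, h2⟩)
      have h4 := hn.2
      omega
    · right
      obtain ⟨N, hN⟩ := h.bddAbove
      refine mem_iUnion.2 ⟨N + 1, fun n hn => ?_⟩
      by_contra hc
      have h2 : x n = false := by simpa using hc
      have h3 := hN (show n ∈ {n | r n = true ∧ x n = false} from ⟨hn.1, h2⟩)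
      have h4 := hn.2
      omega
  refine measure_mono_null hsub (measure_union_null ?_ ?_)
  · exact measure_iUnion_null fun k => null_const (hk k) false
  · exact measure_iUnion_null fun k => null_const (hk k) true

/-- countably many infinite sets are split by a single set -/
theorem exists_spl_of_countable {R : Set C} (hR : R.Countable)
    (h : ∀ r ∈ R, {n | r n = true}.Infinite) : ∃ x : C, ∀ r ∈ R, Spl x r := by
  have h1 : mu (⋃ r ∈ R, {x : C | ¬ Spl x r}) = 0 :=
    (measure_biUnion_null_iff hR).2 fun r hr => null_not_spl (h r hr)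
  by_contra hc
  push Not at hc
  have h2 : (⋃ r ∈ R, {x : C | ¬ Spl x r}) = Set.univ := by
    refine eq_univ_of_forall fun x => ?_
    obtain ⟨r, hr, hx⟩ := hc x
    exact mem_iUnion₂.2 ⟨r, hr, hx⟩
  rw [h2] at h1
  simp at h1

end Pool.Agent.X182.SF
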