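import Pool.Agent.X182.SF.RecS

/-!
# Splitting points in closed sets of positive measure

If every family of fewer than continuum many infinite sets is split by a single set, then a
splitting set can be found in every closed set of positive measure.
-/

set_option autoImplicit false

namespace Pool.Agent.X182.SF

open Set Cardinal Topology Filter MeasureTheory Pool.Agent.H3R3.Rigid Pool.Agent.X182.SH
open scoped ENNReal

/-- the points which agree with a point of `E` on the first `k` coordinates -/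
def thick (k : ℕ) (E : Set C) : Set C := {y | ∃ x ∈ E, Agr k x y}

lemma isOpen_thick (k : ℕ) (E : Set C) : IsOpen (thick k E) := by
  have h : thick k E = ⋃ x ∈ E, {y | Agr k x y} := by
    ext y
    simp [thick]
  rw [h]
  exact isOpen_biUnion fun x _ => isOpen_agr k x

lemma subset_thick (k : ℕ) (E : Set C) : E ⊆ thick k E := fun x hx => ⟨x, hx, agr_refl k x⟩

lemma thick_antitone (E : Set C) : Antitone fun k => thick k E := by
  rintro k l hkl y ⟨x, hx, hxy⟩
  exact ⟨x, hx, fun i hi => hxy i (hi.trans_le hkl)⟩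

lemma tendsto_thick {E : Set C} (hE : IsClosed E) :
    Tendsto (fun k => mu (thick k E \ E)) atTop (𝓝 0) := by
  have h1 : ⋂ k, (thick k E \ E) = ∅ := by
    by_contra hne
    obtain ⟨y, hy⟩ := Set.nonempty_iff_ne_empty.2 hne
    have hy' := mem_iInter.1 hy
    have hyE : y ∉ E := (hy' 0).2
    obtain ⟨k, hk⟩ := exists_agr_of_isOpen hE.isOpen_compl hyE
    obtain ⟨x, hx, hxy⟩ := (hy' k).1
    exact hk x hxy.symm hx
  have h2 := tendsto_measure_iInter_atTop (μ := mu) (s := fun k => thick k E \ E)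
    (fun k => ((isOpen_thick k E).measurableSet.diff hE.measurableSet).nullMeasurableSet)
    (fun k l hkl => sdiff_subset_sdiff_left (thick_antitone E hkl))
    ⟨0, measure_ne_top mu _⟩
  rw [h1, measure_empty] at h2
  exact h2

lemma measure_flip_preimage (q : Finset ℕ) (S : Set C) : mu (flip q ⁻¹' S) = mu S := by
  have h : flip q ⁻¹' S = flip q '' S := by
    ext y
    constructor
    · intro hy
      exact ⟨SH.flip q y, hy, SH.flip_flip q y⟩
    · rintro ⟨x, hx, rfl⟩
      show flip q (flip q x) ∈ S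
      rwa [SH.flip_flip]
  rw [h, measure_flip_image]

lemma agr_flip_Ico (k l : ℕ) (x : C) : Agr k x (flip (Finset.Ico k l) x) := by
  intro i hi
  have : i ∉ Finset.Ico k l := by
    rw [Finset.mem_Ico]
    omega
  simp [SH.flip, this]

/-- the invariant of the construction -/
def Good (s : ℕ × Set C) : Prop := IsClosed s.2 ∧ 2 * mu (thick s.1 s.2 \ s.2) < mu s.2

lemma exists_good {K : Set C} (hK : IsClosed K) (hK0 : mu K ≠ 0) : ∃ k, Good (k, K) := by
  have h1 : Tendsto (fun k => 2 * mu (thick k K \ K)) atTop (𝓝 (2 * 0)) :=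
    ENNReal.Tendsto.const_mul (tendsto_thick hK) (Or.inr (by simp))
  rw [mul_zero] at h1
  obtain ⟨k, hk⟩ := (h1.eventually (gt_mem_nhds (pos_iff_ne_zero.2 hK0))).exists
  exact ⟨k, hK, hk⟩

lemma exists_next (s : ℕ × Set C) (hs : Good s) : ∃ l, s.1 < l ∧
    Good (l, s.2 ∩ flip (Finset.Ico s.1 l) ⁻¹' s.2) := by
  obtain ⟨k, E⟩ := s
  obtain ⟨hE, h2⟩ := hs
  simp only at hE h2 ⊢
  have hE0 : mu E ≠ 0 := (lt_of_le_of_lt zero_le h2).ne'
  have hfin : mu E ≠ ⊤ := measure_ne_top mu E
  have h1 : Tendsto (fun l => 2 * (2 * (2 * mu (thick l E \ E)))) atTop (𝓝 0) := by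
    have h3 : Tendsto (fun l => 2 * (2 * (2 * mu (thick l E \ E)))) atTop
        (𝓝 (2 * (2 * (2 * 0)))) :=
      ENNReal.Tendsto.const_mul (ENNReal.Tendsto.const_mul (ENNReal.Tendsto.const_mul
        (tendsto_thick hE) (Or.inr (by simp))) (Or.inr (by simp))) (Or.inr (by simp))
    simpa using h3
  obtain ⟨l, hl1, hl2⟩ := ((h1.eventually (gt_mem_nhds (pos_iff_ne_zero.2 hE0))).and
    (eventually_gt_atTop k)).exists
  refine ⟨l, hl2, hE.inter (hE.preimage (continuous_flip _)), ?_⟩
  simp only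
  set q := Finset.Ico k l with hq
  set E' := E ∩ flip q ⁻¹' E with hE'
  -- the measure of the new set
  have h3 : mu E ≤ mu E' + mu (thick k E \ E) := by
    have h4 : E ⊆ E' ∪ flip q ⁻¹' (thick k E \ E) := by
      intro x hx
      by_cases h5 : flip q x ∈ E
      · exact Or.inl ⟨hx, h5⟩
      · exact Or.inr ⟨⟨x, hx, agr_flip_Ico k l x⟩, h5⟩
    refine (measure_mono h4).trans ((measure_union_le _ _).trans ?_)
    rw [measure_flip_preimage]
  -- the thickening of the new set
  have h6 : mu (thick l E' \ E') ≤ 2 * mu (thick l E \ E) := by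
    have h7 : thick l E' \ E' ⊆ (thick l E \ E) ∪ flip q ⁻¹' (thick l E \ E) := by
      rintro y ⟨⟨x, hx, hxy⟩, hy⟩
      by_cases hyE : y ∈ E
      · right
        refine ⟨⟨flip q x, hx.2, fun i hi => ?_⟩, fun h => hy ⟨hyE, h⟩⟩
        simp only [SH.flip]
        rw [hxy i hi]
      · left
        exact ⟨⟨x, hx.1, hxy⟩, hyE⟩
    refine (measure_mono h7).trans ((measure_union_le _ _).trans ?_)
    rw [measure_flip_preimage, two_mul]
  -- conclusion
  have h8 : 2 * (2 * mu (thick l E' \ E')) < mu E :=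
    lt_of_le_of_lt (mul_le_mul_right (mul_le_mul_right h6 2) 2) hl1
  have h9 : mu E < 2 * mu E' := by
    have h10 : 2 * mu E ≤ 2 * mu E' + 2 * mu (thick k E \ E) := by
      rw [← mul_add]
      exact mul_le_mul_right h3 2
    have h11 : 2 * mu E < 2 * mu E' + mu E := by
      refine lt_of_le_of_lt h10 ?_
      exact ENNReal.add_lt_add_left (by finiteness) h2
    rw [two_mul (mu E)] at h11
    exact lt_of_add_lt_add_right h11
  have h12 : 2 * (2 * mu (thick l E' \ E')) < 2 * mu E' := h8.trans h9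
  exact lt_of_mul_lt_mul_left h12 zero_le

/-- **Block-constant translates.** -/
theorem exists_blocks {K : Set C} (hK : IsClosed K) (hK0 : mu K ≠ 0) :
    ∃ (w : C) (k : ℕ → ℕ), StrictMono k ∧ ∀ f : ℕ → Bool,
      ∃ y ∈ K, ∀ i m, k i ≤ m → m < k (i + 1) → y m = if f i = true then !(w m) else w m := by
  classical
  obtain ⟨k0, hk0⟩ := exists_good hK hK0
  choose! nx hnx1 hnx2 using exists_next
  let s : ℕ → ℕ × Set C := fun n => Nat.rec (k0, K)
    (fun _ s => (nx s, s.2 ∩ flip (Finset.Ico s.1 (nx s)) ⁻¹' s.2)) n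
  have hs : ∀ n, Good (s n) := by
    intro n
    induction n with
    | zero => exact hk0
    | succ n ih => exact hnx2 _ ih
  have hk : StrictMono fun n => (s n).1 := strictMono_nat_of_lt_succ fun n => hnx1 _ (hs n)
  have hsucc : ∀ n, (s (n + 1)).2 =
      (s n).2 ∩ flip (Finset.Ico (s n).1 (s (n + 1)).1) ⁻¹' (s n).2 := fun n => rfl
  have hanti : ∀ n, (s (n + 1)).2 ⊆ (s n).2 := fun n => by
    rw [hsucc]
    exact inter_subset_left
  have hne : ∀ n, ((s n).2).Nonempty := by
    intro n
    by_contra h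
    rw [not_nonempty_iff_eq_empty] at h
    have h2 := (hs n).2
    rw [h] at h2
    simp at h2
  obtain ⟨w, hw⟩ := IsCompact.nonempty_iInter_of_sequence_nonempty_isCompact_isClosed
    (fun n => (s n).2) hanti hne ((hs 0).1.isCompact) (fun n => (hs n).1)
  have hw' := mem_iInter.1 hw
  have hstep : ∀ (f : ℕ → Bool) (n : ℕ) (x : C), x ∈ (s n).2 →
      (fun m => if ∃ i < n, (s i).1 ≤ m ∧ m < (s (i + 1)).1 ∧ f i = true then !(x m) else x m)
        ∈ K := by
    intro f n
    induction n with
    | zero =>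
      intro x hx
      have hx2 : x ∈ K := hx
      simpa using hx2
    | succ n ih =>
      intro x hx
      rw [hsucc] at hx
      set x' : C := if f n = true then flip (Finset.Ico (s n).1 (s (n + 1)).1) x else x with hx'
      have hx'2 : x' ∈ (s n).2 := by
        rw [hx']
        split_ifs
        · exact hx.2
        · exact hx.1
      have h1 := ih x' hx'2
      convert h1 using 1
      funext m
      have hx'm : x' m = if (s n).1 ≤ m ∧ m < (s (n + 1)).1 ∧ f n = true then !(x m) else x m := by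
        rw [hx']
        by_cases hf : f n = true
        · simp only [hf, if_true, SH.flip, Finset.mem_Ico, and_true]
        · simp [hf]
      by_cases hP : ∃ i < n, (s i).1 ≤ m ∧ m < (s (i + 1)).1 ∧ f i = true
      · obtain ⟨i, hi, h2, h3, h4⟩ := hP
        have h5 : (s (i + 1)).1 ≤ (s n).1 := hk.monotone (by omega : i + 1 ≤ n)
        have h6 : ¬ ((s n).1 ≤ m ∧ m < (s (n + 1)).1 ∧ f n = true) := by
          rintro ⟨h7, -⟩
          omega
        rw [if_pos ⟨i, by omega, h2, h3, h4⟩, if_pos ⟨i, hi, h2, h3, h4⟩, hx'm, if_neg h6]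
      · rw [if_neg hP, hx'm]
        by_cases hn : (s n).1 ≤ m ∧ m < (s (n + 1)).1 ∧ f n = true
        · rw [if_pos ⟨n, by omega, hn⟩, if_pos hn]
        · rw [if_neg hn, if_neg]
          rintro ⟨i, hi, h2⟩
          rcases Nat.lt_succ_iff_lt_or_eq.1 hi with h3 | rfl
          · exact hP ⟨i, h3, h2⟩
          · exact hn h2
  refine ⟨w, fun n => (s n).1, hk, fun f => ?_⟩
  refine ⟨fun m => if ∃ i, (s i).1 ≤ m ∧ m < (s (i + 1)).1 ∧ f i = true then !(w m) else w m,
    ?_, ?_⟩
  · by_contra hcon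
    obtain ⟨l, hl⟩ := exists_agr_of_isOpen hK.isOpen_compl hcon
    refine hl _ ?_ (hstep f l w (hw' l))
    intro m hm
    have h1 : (∃ i < l, (s i).1 ≤ m ∧ m < (s (i + 1)).1 ∧ f i = true) ↔
        ∃ i, (s i).1 ≤ m ∧ m < (s (i + 1)).1 ∧ f i = true := by
      constructor
      · rintro ⟨i, -, h⟩
        exact ⟨i, h⟩
      · rintro ⟨i, h⟩
        refine ⟨i, ?_, h⟩
        have h2 : i ≤ (s i).1 := hk.id_le i
        omega
    simp only [h1]
  · intro i m h1 h2
    have h3 : (∃ j, (s j).1 ≤ m ∧ m < (s (j + 1)).1 ∧ f j = true) ↔ f i = true := by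
      constructor
      · rintro ⟨j, h4, h5, h6⟩
        have h7 : j = i := by
          rcases lt_trichotomy j i with h | h | h
          · have := hk.monotone (show j + 1 ≤ i from h)
            simp only at this h1
            omega
          · exact h
          · have := hk.monotone (show i + 1 ≤ j from h)
            simp only at this h2
            omega
        rw [← h7]
        exact h6
      · intro h
        exact ⟨i, h1, h2, h⟩
    simp only [h3]

/-- The reaping number is the continuum: fewer than continuum many infinite sets are split by a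
single set. -/
def Reap : Prop := ∀ R : Set C, #R < 𝔠 → (∀ r ∈ R, {n | r n = true}.Infinite) →
  ∃ x : C, ∀ r ∈ R, Spl x r

theorem hsplit_of_reap (H : Reap) : HSplit := by
  classical
  intro K hK hK0 R hR hinf
  obtain ⟨w, k, hk, hy⟩ := exists_blocks hK hK0
  -- blocks which contain a point of `r` with a given value of `w`
  let A : C × Bool → C := fun p i =>
    decide (∃ m, k i ≤ m ∧ m < k (i + 1) ∧ p.1 m = true ∧ w m = p.2)
  let R' : Set C := {a | a ∈ A '' (R ×ˢ Set.univ) ∧ {n | a n = true}.Infinite}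
  have hR' : #R' < 𝔠 := by
    have h1 : #(A '' (R ×ˢ (Set.univ : Set Bool)) : Set C) < 𝔠 := by
      refine mk_image_le.trans_lt ?_
      rw [mk_setProd, mk_univ]
      exact mul_lt_of_lt aleph0_le_continuum hR
        ((lt_aleph0_of_finite Bool).trans aleph0_lt_continuum)
    exact (mk_le_mk_of_subset fun a ha => ha.1).trans_lt h1
  obtain ⟨f, hf⟩ := H R' hR' fun a ha => ha.2
  obtain ⟨y, hyK, hyf⟩ := hy f
  refine ⟨y, hyK, fun r hr => ?_⟩
  -- every coordinate above `k 0` is in a block
  have hblk : ∀ m, k 0 ≤ m → ∃ i, k i ≤ m ∧ m < k (i + 1) := by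
    intro m hm
    have h1 : ∃ i, m < k (i + 1) := ⟨m, (hk.id_le m).trans_lt (hk (Nat.lt_succ_self m))⟩
    refine ⟨Nat.find h1, ?_, Nat.find_spec h1⟩
    by_cases h0 : Nat.find h1 = 0
    · rw [h0]; exact hm
    · obtain ⟨j, hj⟩ := Nat.exists_eq_succ_of_ne_zero h0
      have h2 := Nat.find_min h1 (m := j) (by omega)
      rw [hj]
      exact not_lt.1 h2
  -- one of the two values occurs in infinitely many blocks
  have hex : ∃ b : Bool, {n | A (r, b) n = true}.Infinite := by
    by_contra hcon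
    push Not at hcon
    have h1 : ∀ b : Bool, ∃ N, ∀ i, N ≤ i → ¬ A (r, b) i = true := by
      intro b
      obtain ⟨N, hN⟩ := (hcon b).bddAbove
      refine ⟨N + 1, fun i hi hA => ?_⟩
      have := hN (show i ∈ {n | A (r, b) n = true} from hA)
      omega
    obtain ⟨N1, hN1⟩ := h1 true
    obtain ⟨N2, hN2⟩ := h1 false
    refine hinf r hr ((Set.finite_Iio (k (max N1 N2))).subset fun m hm => ?_)
    by_contra hmk
    have hmk' : k (max N1 N2) ≤ m := not_lt.1 hmk
    obtain ⟨i, hi1, hi2⟩ := hblk m ((hk.monotone (Nat.zero_le _)).trans hmk')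
    have hi3 : max N1 N2 ≤ i := by
      by_contra h
      have h4 : k (i + 1) ≤ k (max N1 N2) := hk.monotone (by omega)
      omega
    cases hwm : w m with
    | true => exact hN1 i ((le_max_left _ _).trans hi3) (decide_eq_true ⟨m, hi1, hi2, hm, hwm⟩)
    | false => exact hN2 i ((le_max_right _ _).trans hi3) (decide_eq_true ⟨m, hi1, hi2, hm, hwm⟩)
  obtain ⟨b, hb⟩ := hex
  have hA : A (r, b) ∈ R' := ⟨⟨(r, b), ⟨hr, Set.mem_univ _⟩, rfl⟩, hb⟩
  obtain ⟨h1, h2⟩ := hf _ hA
  have g1 : {n | r n = true ∧ y n = !b}.Infinite := by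
    refine Set.infinite_of_forall_exists_gt fun N => ?_
    obtain ⟨i, ⟨hi1, hi2⟩, hi3⟩ := h1.exists_gt N
    obtain ⟨m, hm1, hm2, hm3, hm4⟩ := of_decide_eq_true hi1
    refine ⟨m, ⟨hm3, ?_⟩, hi3.trans_le ((hk.id_le i).trans hm1)⟩
    rw [hyf i m hm1 hm2, if_pos hi2, hm4]
  have g2 : {n | r n = true ∧ y n = b}.Infinite := by
    refine Set.infinite_of_forall_exists_gt fun N => ?_
    obtain ⟨i, ⟨hi1, hi2⟩, hi3⟩ := h2.exists_gt N
    obtain ⟨m, hm1, hm2, hm3, hm4⟩ := of_decide_eq_true hi1
    refine ⟨m, ⟨hm3, ?_⟩, hi3.trans_le ((hk.id_le i).trans hm1)⟩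
    rw [hyf i m hm1 hm2, if_neg (by rw [hi2]; simp), hm4]
  cases b with
  | true => exact ⟨g2, g1⟩
  | false => exact ⟨g1, g2⟩

end Pool.Agent.X182.SF
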