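import Pool.Agent.X182.SF.RecS

/-!
# No proper clopen subspace is homeomorphic to the whole semifilter
-/

set_option autoImplicit false

namespace Pool.Agent.X182.SF

open Set Cardinal Topology Filter MeasureTheory Pool.Agent.H3R3.Rigid Pool.Agent.X182.SH
open scoped ENNReal

lemma exists_closed_of_pos {M : Set C} (hM : MeasurableSet M) (h0 : mu M ≠ 0) :
    ∃ K ⊆ M, IsClosed K ∧ mu K ≠ 0 := by
  obtain ⟨K, hKM, hK, hK0⟩ := hM.exists_lt_isClosed_of_ne_top (measure_ne_top mu _)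
    (pos_iff_ne_zero.2 h0)
  exact ⟨K, hKM, hK, hK0.ne'⟩

lemma one_le_of_meets {S : Set C} (h3 : ∀ K : Set C, IsClosed K → mu K ≠ 0 → (K ∩ S).Nonempty) :
    1 ≤ mu S := by
  by_contra hc
  push Not at hc
  have hM : MeasurableSet (toMeasurable mu S)ᶜ := (measurableSet_toMeasurable _ _).compl
  have h0 : mu (toMeasurable mu S)ᶜ ≠ 0 := by
    intro h
    have h1 := prob_add_prob_compl (μ := mu) (measurableSet_toMeasurable mu S)
    rw [h, add_zero, measure_toMeasurable] at h1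
    exact absurd h1 hc.ne
  obtain ⟨K, hKM, hK, hK0⟩ := exists_closed_of_pos hM h0
  obtain ⟨z, hz, hzS⟩ := h3 K hK hK0
  exact hKM hz (subset_toMeasurable mu _ hzS)

lemma meets_open {S : Set C} (h3 : ∀ K : Set C, IsClosed K → mu K ≠ 0 → (K ∩ S).Nonempty)
    {O : Set C} (hO : IsOpen O) {y : C} (hy : y ∈ O) : ∃ x ∈ O, x ∈ S := by
  obtain ⟨k, hk⟩ := exists_agr_of_isOpen hO hy
  obtain ⟨x, hx, hxS⟩ := h3 {z | Agr k y z} (isClopen_agr k y).1 (by
    rw [mu_agr]
    simp)
  exact ⟨x, hk x hx, hxS⟩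

/-- a homeomorphism onto `S` starts from a set of outer measure at least one -/
theorem one_le_mu {S : Set C}
    (h3 : ∀ K : Set C, IsClosed K → mu K ≠ 0 → (K ∩ S).Nonempty)
    (h4 : ∀ K : Set C, IsClosed K → mu K ≠ 0 → ∀ c : Code, (∀ x ∈ K, ¬ E0 x (psi c x)) →
      ∃ x ∈ K, ¬ (x ∈ S ↔ psi c x ∈ S))
    {U : Set S} {O : Set C} (hO : MeasurableSet O) (hU : Subtype.val ⁻¹' O = U) (g : U ≃ₜ S) :
    1 ≤ mu O := by
  have hSne : S.Nonempty := by
    obtain ⟨x, -, hx⟩ := h3 Set.univ isClosed_univ (by simp)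
    exact ⟨x, hx⟩
  have hSne' : Nonempty S := hSne.to_subtype
  have hUne : Nonempty U := ⟨g.symm hSne'.some⟩
  have ha : IsEmbedding (fun u : U => (u.1.1 : C)) :=
    IsEmbedding.subtypeVal.comp IsEmbedding.subtypeVal
  have hb : IsEmbedding (fun u : U => ((g u).1 : C)) :=
    IsEmbedding.subtypeVal.comp g.isEmbedding
  obtain ⟨c, hc⟩ := exists_code_psi _ _ ha.isInducing hb.continuous
  obtain ⟨d, hd⟩ := exists_code_psi _ _ hb.isInducing ha.continuous
  have hmemU : ∀ (z : C) (hz : z ∈ S), z ∈ O → (⟨z, hz⟩ : S) ∈ U := by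
    intro z hz hzO
    rw [← hU]
    exact hzO
  -- the exceptional set
  set Exc : Set C := {y | psi c (psi d y) = y} ∩ ((psi d) ⁻¹' O ∩ {y | E0 y (psi d y)}ᶜ) with hExc
  have hExcm : MeasurableSet Exc := by
    refine (measurableSet_eq_of ((measurable_psi c).comp (measurable_psi d)) measurable_id).inter ?_
    exact ((measurable_psi d) hO).inter (measurableSet_E0 d).compl
  have hExc0 : mu Exc = 0 := by
    by_contra h0
    obtain ⟨K, hKM, hK, hK0⟩ := exists_closed_of_pos hExcm h0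
    obtain ⟨x, hx, hx2⟩ := h4 K hK hK0 d (fun x hx => (hKM hx).2.2)
    apply hx2
    obtain ⟨e1, e2, -⟩ := hKM hx
    constructor
    · intro hxS
      have h5 : x = (g (g.symm ⟨x, hxS⟩)).1 := by simp
      have h6 : psi d x = ((g.symm ⟨x, hxS⟩).1.1 : C) := by
        conv_lhs => rw [h5]
        exact hd _
      rw [h6]
      exact (g.symm ⟨x, hxS⟩).1.2
    · intro hxS
      have h5 : (⟨psi d x, hxS⟩ : S) ∈ U := hmemU _ hxS e2
      have h6 := hc ⟨⟨psi d x, hxS⟩, h5⟩
      have h7 : psi c (psi d x) = x := e1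
      simp only at h6
      rw [h7] at h6
      rw [h6]
      exact (g ⟨⟨psi d x, hxS⟩, h5⟩).2
  -- the pieces
  obtain ⟨q, hq⟩ := exists_surjective_nat (Finset ℕ)
  set D : ℕ → Set C := fun n => O ∩ {z | psi c z = flip (q n) z} with hD
  have hDm : ∀ n, MeasurableSet (D n) := fun n =>
    hO.inter (measurableSet_eq_of (measurable_psi c) (measurable_flip (q n)))
  have hEm : ∀ n, MeasurableSet (disjointed D n) :=
    fun n => MeasurableSet.disjointed (fun i => hDm i) n
  have hcov : S ⊆ (⋃ n, flip (q n) '' (disjointed D n)) ∪ Exc := by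
    intro y hy
    set u : U := g.symm ⟨y, hy⟩ with hu
    have hgu : ((g u).1 : C) = y := by simp [hu]
    have huO : (u.1.1 : C) ∈ O := by
      have h9 : (u.1 : S) ∈ (Subtype.val ⁻¹' O : Set S) := hU.symm ▸ u.2
      exact h9
    have e1 : psi c u.1.1 = y := (hc u).trans hgu
    have e2 : psi d y = u.1.1 := by
      rw [← hgu]
      exact hd u
    by_cases hE : E0 y (psi d y)
    · left
      rw [e2] at hE
      obtain ⟨r, hr⟩ := exists_flip_of_E0 hE.symm
      obtain ⟨n, rfl⟩ := hq r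
      have h5 : (u.1.1 : C) ∈ ⋃ n, D n := mem_iUnion.2 ⟨n, huO, e1.trans hr⟩
      rw [← iUnion_disjointed] at h5
      obtain ⟨k, hk⟩ := mem_iUnion.1 h5
      refine mem_iUnion.2 ⟨k, u.1.1, hk, ?_⟩
      have h6 : psi c u.1.1 = flip (q k) u.1.1 := (disjointed_subset D k hk).2
      rw [← h6, e1]
    · right
      refine ⟨?_, ?_, hE⟩
      · show psi c (psi d y) = y
        rw [e2, e1]
      · show psi d y ∈ O
        rw [e2]
        exact huO
  calc (1 : ℝ≥0∞) ≤ mu S := one_le_of_meets h3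
    _ ≤ mu ((⋃ n, flip (q n) '' (disjointed D n)) ∪ Exc) := measure_mono hcov
    _ ≤ mu (⋃ n, flip (q n) '' (disjointed D n)) + mu Exc := measure_union_le _ _
    _ = mu (⋃ n, flip (q n) '' (disjointed D n)) := by rw [hExc0, add_zero]
    _ ≤ ∑' n, mu (flip (q n) '' (disjointed D n)) := measure_iUnion_le _
    _ = ∑' n, mu (disjointed D n) := by simp only [measure_flip_image]
    _ = mu (⋃ n, disjointed D n) := (measure_iUnion (disjoint_disjointed D) hEm).symm
    _ ≤ mu O := by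
        rw [iUnion_disjointed]
        exact measure_mono (iUnion_subset fun n => inter_subset_left)

/-- **No proper clopen subspace is homeomorphic to the whole space.** -/
theorem eq_univ_of_homeo {S : Set C}
    (h3 : ∀ K : Set C, IsClosed K → mu K ≠ 0 → (K ∩ S).Nonempty)
    (h4 : ∀ K : Set C, IsClosed K → mu K ≠ 0 → ∀ c : Code, (∀ x ∈ K, ¬ E0 x (psi c x)) →
      ∃ x ∈ K, ¬ (x ∈ S ↔ psi c x ∈ S))
    {U : Set S} (hU : IsClopen U) (g : U ≃ₜ S) : U = Set.univ := by
  obtain ⟨O, hO, hOU⟩ := isOpen_induced_iff.1 hU.isOpen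
  obtain ⟨O', hO', hOU'⟩ := isOpen_induced_iff.1 hU.compl.isOpen
  have h1 := one_le_mu h3 h4 hO.measurableSet hOU g
  have hdis : Disjoint O O' := by
    rw [Set.disjoint_left]
    intro y hy hy'
    obtain ⟨x, hx, hxS⟩ := meets_open h3 (hO.inter hO') ⟨hy, hy'⟩
    have e1 : (⟨x, hxS⟩ : S) ∈ U := by rw [← hOU]; exact hx.1
    have e2 : (⟨x, hxS⟩ : S) ∈ Uᶜ := by rw [← hOU']; exact hx.2
    exact e2 e1
  have h2 : mu O + mu O' ≤ 1 := by
    rw [← measure_union hdis hO'.measurableSet]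
    exact prob_le_one
  have h5 : mu O' = 0 := by
    by_contra h0
    have h6 : (1 : ℝ≥0∞) < mu O + mu O' := by
      refine lt_of_lt_of_le ?_ (add_le_add_left h1 (mu O'))
      exact ENNReal.lt_add_right (by simp) h0
    exact absurd h2 (not_le.2 h6)
  have h6 : O' = ∅ := by
    by_contra hne
    obtain ⟨y, hy⟩ := Set.nonempty_iff_ne_empty.2 hne
    obtain ⟨k, hk⟩ := exists_agr_of_isOpen hO' hy
    have h7 : mu {z | Agr k y z} ≤ mu O' := measure_mono fun z hz => hk z hz
    rw [h5, mu_agr] at h7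
    simp at h7
  have h7 : Uᶜ = ∅ := by rw [← hOU', h6, preimage_empty]
  exact compl_empty_iff.1 h7

end Pool.Agent.X182.SF
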