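import Pool.Agent.X182.SH.Rec

/-!
# Measurable extensions of continuous maps with countable codes
-/

set_option autoImplicit false

namespace Pool.Agent.X182.SF

open Set Cardinal Topology Filter MeasureTheory Pool.Agent.H3R3.Rigid Pool.Agent.X182.SH
open scoped ENNReal

open Classical in
/-- the map with a given code; it is measurable on the whole Cantor space -/
noncomputable def psi (c : Code) (z : C) : C := fun i =>
  decide (∃ m n : ℕ, Agr m z (c.1 n) ∧ ∀ n' : ℕ, Agr m z (c.1 n') → c.2 n' i = true)

lemma measurableSet_agr (m : ℕ) (x : C) : MeasurableSet {z : C | Agr m z x} := by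
  have h : {z : C | Agr m z x} = {z : C | Agr m x z} := by
    ext z
    exact ⟨fun h => h.symm, fun h => h.symm⟩
  rw [h]
  exact (isClopen_agr m x).2.measurableSet

lemma measurable_psi (c : Code) : Measurable (psi c) := by
  classical
  refine measurable_pi_iff.2 fun i => ?_
  refine measurable_to_bool ?_
  have h : (fun z => psi c z i) ⁻¹' {true} =
      ⋃ m : ℕ, ⋃ n : ℕ, ({z | Agr m z (c.1 n)} ∩
        ⋂ n' : ℕ, {z | Agr m z (c.1 n') → c.2 n' i = true}) := by
    ext z
    simp [psi]
  rw [h]
  refine MeasurableSet.iUnion fun m => MeasurableSet.iUnion fun n => ?_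
  refine (measurableSet_agr m _).inter (MeasurableSet.iInter fun n' => ?_)
  by_cases h2 : c.2 n' i = true
  · simp [h2]
  · have h3 : {z : C | Agr m z (c.1 n') → c.2 n' i = true} = {z : C | Agr m z (c.1 n')}ᶜ := by
      ext z
      simp [h2]
    rw [h3]
    exact (measurableSet_agr m _).compl

lemma exists_code_psi {U : Type} [TopologicalSpace U] [TopologicalSpace.SeparableSpace U]
    [Nonempty U] (a b : U → C) (ha : IsInducing a) (hb : Continuous b) :
    ∃ c : Code, ∀ u, psi c (a u) = b u := by
  classical
  refine ⟨(a ∘ TopologicalSpace.denseSeq U, b ∘ TopologicalSpace.denseSeq U), fun u => ?_⟩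
  funext i
  -- a neighbourhood on which `b · i` is constant
  have h1 : IsOpen {v : U | b v i = b u i} := by
    have : Continuous fun v => b v i := (continuous_apply i).comp hb
    exact (isOpen_discrete {b u i}).preimage this
  obtain ⟨W, hW, hWu⟩ := ha.isOpen_iff.1 h1
  have hu : a u ∈ W := by
    have : u ∈ a ⁻¹' W := by rw [hWu]; rfl
    exact this
  obtain ⟨k, hk⟩ := exists_agr_of_isOpen hW hu
  have hk' : ∀ v : U, Agr k (a u) (a v) → b v i = b u i := by
    intro v hv
    have : v ∈ a ⁻¹' W := hk _ hv
    rw [hWu] at this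
    exact this
  have hdense : ∀ m : ℕ, ∃ n : ℕ, Agr m (a u) (a (TopologicalSpace.denseSeq U n)) := by
    intro m
    have h2 : IsOpen (a ⁻¹' {y | Agr m (a u) y}) := (isOpen_agr m (a u)).preimage ha.continuous
    obtain ⟨n, hn⟩ := (TopologicalSpace.denseRange_denseSeq U).exists_mem_open h2
      ⟨u, agr_refl m (a u)⟩
    exact ⟨n, hn⟩
  show decide _ = b u i
  by_cases hbu : b u i = true
  · rw [hbu, decide_eq_true_iff]
    obtain ⟨n, hn⟩ := hdense k
    refine ⟨k, n, hn, fun n' hn' => ?_⟩
    show b (TopologicalSpace.denseSeq U n') i = true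
    rw [hk' _ hn', hbu]
  · have hbf : b u i = false := by simpa using hbu
    rw [hbf, decide_eq_false_iff_not]
    rintro ⟨m, n, -, h3⟩
    obtain ⟨n', hn'⟩ := hdense (max m k)
    have h4 : Agr m (a u) (a (TopologicalSpace.denseSeq U n')) :=
      fun j hj => hn' j (lt_of_lt_of_le hj (le_max_left _ _))
    have h5 : Agr k (a u) (a (TopologicalSpace.denseSeq U n')) :=
      fun j hj => hn' j (lt_of_lt_of_le hj (le_max_right _ _))
    have h6 : b (TopologicalSpace.denseSeq U n') i = true := h3 n' h4
    rw [hk' _ h5, hbf] at h6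
    exact absurd h6 (by simp)

lemma measurable_flip (q : Finset ℕ) : Measurable (flip q) := (continuous_flip q).measurable

lemma measurableSet_eq_of {f g : C → C} (hf : Measurable f) (hg : Measurable g) :
    MeasurableSet {z | f z = g z} := measurableSet_eq_fun hf hg

lemma measurableSet_E0 (c : Code) : MeasurableSet {z : C | E0 z (psi c z)} := by
  have h : {z : C | E0 z (psi c z)} = ⋃ q : Finset ℕ, {z | psi c z = flip q z} := by
    ext z
    constructor
    · intro h
      obtain ⟨q, hq⟩ := exists_flip_of_E0 h
      exact mem_iUnion.2 ⟨q, hq⟩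
    · intro h
      obtain ⟨q, hq⟩ := mem_iUnion.1 h
      show E0 z (psi c z)
      rw [show psi c z = flip q z from hq]
      exact E0_flip q z
  rw [h]
  exact MeasurableSet.iUnion fun q => measurableSet_eq_of (measurable_psi c) (measurable_flip q)

end Pool.Agent.X182.SF
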