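import Pool.Agent.X182.SF.Psi

/-!
# A transfinite recursion: a semifilter without big partial homeomorphisms
-/

set_option autoImplicit false

namespace Pool.Agent.X182.SF

open Set Cardinal Topology Filter MeasureTheory Pool.Agent.H3R3.Rigid Pool.Agent.X182.SH
open scoped ENNReal

/-- almost inclusion -/
def Le (x y : C) : Prop := {n | x n = true ∧ y n = false}.Finite

/-- `x` splits `r` -/
def Spl (x r : C) : Prop :=
  {n | r n = true ∧ x n = true}.Infinite ∧ {n | r n = true ∧ x n = false}.Infinite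

lemma Le.trans {x y z : C} (h : Le x y) (h' : Le y z) : Le x z := by
  refine (Set.Finite.union h h').subset ?_
  rintro n ⟨h1, h2⟩
  by_cases hy : y n = true
  · exact Or.inr ⟨hy, h2⟩
  · exact Or.inl ⟨h1, by simpa using hy⟩

lemma Le.refl (x : C) : Le x x := by
  have : {n | x n = true ∧ x n = false} = ∅ := by
    ext n
    simp
  rw [Le, this]
  exact finite_empty

lemma E0.le {x y : C} (h : E0 x y) : Le x y := by
  refine Set.Finite.subset h ?_
  rintro n ⟨h1, h2⟩
  show x n ≠ y n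
  rw [h1, h2]
  simp

lemma E0_of_le {x y : C} (h : Le x y) (h' : Le y x) : E0 x y := by
  refine (Set.Finite.union h h').subset ?_
  intro n hn
  have hn' : x n ≠ y n := hn
  by_cases hx : x n = true
  · left
    refine ⟨hx, ?_⟩
    by_contra hy
    exact hn' (by rw [hx]; simpa using (show y n = true by simpa using hy))
  · right
    have hx' : x n = false := by simpa using hx
    refine ⟨?_, hx'⟩
    by_contra hy
    exact hn' (by rw [hx']; simpa using hy)

/-- the complement -/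
def co (x : C) : C := fun n => !(x n)

/-- Every closed set of positive measure contains a point which splits all members of a given
family of fewer than continuum many infinite sets. -/
def HSplit : Prop := ∀ K : Set C, IsClosed K → mu K ≠ 0 → ∀ R : Set C, #R < 𝔠 →
  (∀ r ∈ R, {n | r n = true}.Infinite) → ∃ x ∈ K, ∀ r ∈ R, Spl x r

lemma infinite_of_not_le {a b : C} (h : ¬ Le a b) : {n | a n = true}.Infinite := by
  intro hf
  exact h (hf.subset fun n hn => hn.1)

lemma infinite_co_of_not_le {a b : C} (h : ¬ Le a b) : {n | co b n = true}.Infinite := by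
  intro hf
  refine h (hf.subset fun n hn => ?_)
  show (!(b n)) = true
  rw [hn.2]
  rfl

lemma not_le_of_spl {x a : C} (h : Spl x a) : ¬ Le a x := h.2

lemma not_le_of_spl_co {x b : C} (h : Spl x (co b)) : ¬ Le x b := by
  intro hf
  refine h.1 (hf.subset ?_)
  rintro n ⟨h1, h2⟩
  refine ⟨h2, ?_⟩
  have h3 : (!(b n)) = true := h1
  simpa using h3

lemma spl_co {x r : C} (h : Spl x r) : Spl (co x) r := by
  refine ⟨?_, ?_⟩
  · refine h.2.mono ?_
    rintro n ⟨h1, h2⟩
    refine ⟨h1, ?_⟩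
    show (!(x n)) = true
    rw [h2]
    rfl
  · refine h.1.mono ?_
    rintro n ⟨h1, h2⟩
    refine ⟨h1, ?_⟩
    show (!(x n)) = false
    rw [h2]
    rfl

lemma not_E0_co (x : C) : ¬ E0 x (co x) := by
  intro h
  have h2 : {n | x n ≠ co x n} = Set.univ := by
    ext n
    simp [co]
  rw [Pool.Agent.H3R3.Rigid.E0, h2] at h
  exact infinite_univ h

/-- the requirement at one step of the recursion -/
def Req (K : Set C) (f : C → C) (b : Bool) (p : C × C) : Prop :=
  (b = true → p.1 ∈ K) ∧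
    (b = false → (∀ x ∈ K, ¬ E0 x (f x)) → ∃ x ∈ K, p = (x, f x) ∨ p = (f x, x))

theorem exists_seq (H : HSplit) (K : Ix → Set C) (hK : ∀ i, IsClosed (K i))
    (hK0 : ∀ i, mu (K i) ≠ 0) (f : Ix → C → C) (b : Ix → Bool) :
    ∃ p : Ix → C × C, (∀ i j, ¬ Le (p i).1 (p j).2) ∧ ∀ i, Req (K i) (f i) (b i) (p i) := by
  classical
  let Inv : ∀ i : Ix, (∀ j, j < i → C × C) → Prop :=
    fun i g => ∀ j (hj : j < i), ∀ k (hk : k < i), ¬ Le (g j hj).1 (g k hk).2
  let Q : ∀ i : Ix, (∀ j, j < i → C × C) → C × C → Prop :=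
    fun i g p => Inv i g → (¬ Le p.1 p.2 ∧ (∀ j (hj : j < i), ¬ Le (g j hj).1 p.2 ∧
      ¬ Le p.1 (g j hj).2) ∧ Req (K i) (f i) (b i) p)
  have hQ : ∀ i g, ∃ p, Q i g p := by
    intro i g
    by_cases hinv : Inv i g
    swap
    · exact ⟨(fun _ => true, fun _ => true), fun h => absurd h hinv⟩
    let R : Set C := insert (fun _ => true) ((range fun j : Iio i => (g j.1 j.2).1) ∪
      (range fun j : Iio i => co (g j.1 j.2).2))
    have hR : #R < 𝔠 := by
      have h1 : #(range fun j : Iio i => (g j.1 j.2).1) < 𝔠 :=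
        mk_range_le.trans_lt (mk_Iio_toType_ord_lt i)
      have h2 : #(range fun j : Iio i => co (g j.1 j.2).2) < 𝔠 :=
        mk_range_le.trans_lt (mk_Iio_toType_ord_lt i)
      refine mk_insert_le.trans_lt (add_lt_of_lt aleph0_le_continuum ?_ (nat_lt_continuum 1))
      exact (mk_union_le _ _).trans_lt (add_lt_of_lt aleph0_le_continuum h1 h2)
    obtain ⟨x, hxK, hx⟩ : ∃ x ∈ K i, (∀ r ∈ R, Spl x r) ∧
        (¬ (∀ x ∈ K i, ¬ E0 x (f i x)) ∨ ¬ E0 x (f i x)) := by
      obtain ⟨x, hxK, hx⟩ := H (K i) (hK i) (hK0 i) R hR (by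
        rintro r (rfl | ⟨j, rfl⟩ | ⟨j, rfl⟩)
        · simpa using infinite_univ
        · exact infinite_of_not_le (hinv j.1 j.2 j.1 j.2)
        · exact infinite_co_of_not_le (hinv j.1 j.2 j.1 j.2))
      refine ⟨x, hxK, hx, ?_⟩
      by_cases h : ∀ x ∈ K i, ¬ E0 x (f i x)
      · exact Or.inr (h x hxK)
      · exact Or.inl h
    obtain ⟨hxR, hxE⟩ := hx
    have hxa : ∀ j (hj : j < i), ¬ Le (g j hj).1 x := fun j hj =>
      not_le_of_spl (hxR _ (Or.inr (Or.inl ⟨⟨j, hj⟩, rfl⟩)))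
    have hxb : ∀ j (hj : j < i), ¬ Le x (g j hj).2 := fun j hj =>
      not_le_of_spl_co (hxR _ (Or.inr (Or.inr ⟨⟨j, hj⟩, rfl⟩)))
    have hxb' : ∀ j (hj : j < i), ¬ Le (g j hj).1 (co x) := fun j hj =>
      not_le_of_spl (spl_co (hxR _ (Or.inr (Or.inl ⟨⟨j, hj⟩, rfl⟩))))
    have hxx : ¬ Le x (co x) := by
      have h1 := (hxR _ (Or.inl rfl)).1
      intro h2
      refine h1 (h2.subset ?_)
      rintro n ⟨-, hn⟩
      refine ⟨hn, ?_⟩
      show (!(x n)) = false
      rw [hn]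
      rfl
    by_cases hb : b i = true
    · refine ⟨(x, co x), fun _ => ⟨hxx, fun j hj => ⟨hxb' j hj, hxb j hj⟩, ?_⟩⟩
      exact ⟨fun _ => hxK, fun h => by rw [hb] at h; exact absurd h (by simp)⟩
    by_cases hE : ∀ x ∈ K i, ¬ E0 x (f i x)
    swap
    · refine ⟨(x, co x), fun _ => ⟨hxx, fun j hj => ⟨hxb' j hj, hxb j hj⟩, ?_⟩⟩
      exact ⟨fun h => absurd h hb, fun _ h => absurd h hE⟩
    have hxy : ¬ E0 x (f i x) := hE x hxK
    -- either order of the pair
    by_cases h1 : ∃ j, ∃ hj : j < i, Le (g j hj).1 (f i x)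
    · obtain ⟨j, hj, h1⟩ := h1
      refine ⟨(f i x, x), fun _ => ⟨fun h => hxa j hj (h1.trans h),
        fun k hk => ⟨hxa k hk, fun h => hinv j hj k hk (h1.trans h)⟩, ?_⟩⟩
      exact ⟨fun h => absurd h hb, fun _ _ => ⟨x, hxK, Or.inr rfl⟩⟩
    by_cases h2 : ∃ j, ∃ hj : j < i, Le (f i x) (g j hj).2
    · obtain ⟨j, hj, h2⟩ := h2
      refine ⟨(x, f i x), fun _ => ⟨fun h => hxb j hj (h.trans h2),
        fun k hk => ⟨fun h => hinv k hk j hj (h.trans h2), hxb k hk⟩, ?_⟩⟩
      exact ⟨fun h => absurd h hb, fun _ _ => ⟨x, hxK, Or.inl rfl⟩⟩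
    push Not at h1 h2
    by_cases h3 : Le x (f i x)
    · have h4 : ¬ Le (f i x) x := fun h => hxy (E0_of_le h3 h)
      refine ⟨(f i x, x), fun _ => ⟨h4, fun k hk => ⟨hxa k hk, h2 k hk⟩, ?_⟩⟩
      exact ⟨fun h => absurd h hb, fun _ _ => ⟨x, hxK, Or.inr rfl⟩⟩
    · refine ⟨(x, f i x), fun _ => ⟨h3, fun k hk => ⟨h1 k hk, hxb k hk⟩, ?_⟩⟩
      exact ⟨fun h => absurd h hb, fun _ _ => ⟨x, hxK, Or.inl rfl⟩⟩
  obtain ⟨p, hp⟩ := exists_rec (r := fun a b : Ix => a < b) wellFounded_lt Q hQ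
  have hinv : ∀ i, Inv i (fun j _ => p j) := by
    intro i
    induction i using WellFoundedLT.induction with
    | ind i ih =>
      intro j hj k hk
      rcases lt_trichotomy j k with h | h | h
      · exact ((hp k (ih k hk)).2.1 j h).1
      · subst h
        exact (hp j (ih j hj)).1
      · exact ((hp j (ih j hj)).2.1 k h).2
  refine ⟨p, fun j k => ?_, fun i => (hp i (hinv i)).2.2⟩
  rcases lt_trichotomy j k with h | h | h
  · exact ((hp k (hinv k)).2.1 j h).1
  · subst h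
    exact (hp j (hinv j)).1
  · exact ((hp j (hinv j)).2.1 k h).2

/-- **The semifilter.** -/
theorem exists_semifilter (H : HSplit) : ∃ S : Set C,
    (∀ x y, Le x y → x ∈ S → y ∈ S) ∧
    (∀ x ∈ S, {n | x n = true}.Infinite) ∧
    (∀ K : Set C, IsClosed K → mu K ≠ 0 → (K ∩ S).Nonempty) ∧
    (∀ K : Set C, IsClosed K → mu K ≠ 0 → ∀ c : Code, (∀ x ∈ K, ¬ E0 x (psi c x)) →
      ∃ x ∈ K, ¬ (x ∈ S ↔ psi c x ∈ S)) := by
  classical
  let T : Type := Pos × Code × Bool
  have hT : #T ≤ #Ix := by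
    rw [mk_Ix]
    show #(Pos × Code × Bool) ≤ 𝔠
    rw [mk_prod, mk_prod, mk_Code]
    simp only [lift_id]
    refine mul_le_of_le aleph0_le_continuum mk_Pos ?_
    refine mul_le_of_le aleph0_le_continuum le_rfl ?_
    exact (lt_aleph0_of_finite Bool).le.trans aleph0_le_continuum
  have hne : mu (Set.univ : Set C) ≠ 0 := by simp
  have : Nonempty T := ⟨(⟨Set.univ, isClosed_univ, hne⟩, (fun _ _ => true, fun _ _ => true), true)⟩
  obtain ⟨e⟩ := hT
  have hs := Function.invFun_surjective e.injective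
  set s : Ix → T := Function.invFun e with hsdef
  obtain ⟨p, hp1, hp2⟩ := exists_seq H (fun i => (s i).1.1) (fun i => (s i).1.2.1)
    (fun i => (s i).1.2.2) (fun i => psi (s i).2.1) (fun i => (s i).2.2)
  refine ⟨{z | ∃ i, Le (p i).1 z}, ?_, ?_, ?_, ?_⟩
  · rintro x y hxy ⟨i, hi⟩
    exact ⟨i, hi.trans hxy⟩
  · rintro x ⟨i, hi⟩ hf
    have h1 := infinite_of_not_le (hp1 i i)
    refine h1 ((hi.union hf).subset fun n hn => ?_)
    by_cases hx : x n = true
    · exact Or.inr hx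
    · exact Or.inl ⟨hn, by simpa using hx⟩
  · intro K hK hK0
    obtain ⟨i, hi⟩ := hs ((⟨K, hK, hK0⟩, (fun _ _ => true, fun _ _ => true), true) : T)
    have h1 := (hp2 i).1 (by rw [hi])
    refine ⟨(p i).1, ?_, i, Le.refl _⟩
    have h2 : (s i).1.1 = K := by rw [hi]
    rw [← h2]
    exact h1
  · intro K hK hK0 c hc
    obtain ⟨i, hi⟩ := hs ((⟨K, hK, hK0⟩, c, false) : T)
    have h2 : (s i).1.1 = K := by rw [hi]
    have h3 : (s i).2.1 = c := by rw [hi]
    obtain ⟨x, hx, hx2⟩ := (hp2 i).2 (by rw [hi]) (by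
      intro x hx
      rw [h3]
      rw [h2] at hx
      exact hc x hx)
    rw [h2] at hx
    simp only [h3] at hx2
    refine ⟨x, hx, fun h => ?_⟩
    rcases hx2 with hx2 | hx2
    · have h4 : x ∈ {z | ∃ i, Le (p i).1 z} := ⟨i, by rw [hx2]; exact Le.refl _⟩
      obtain ⟨j, hj⟩ := h.1 h4
      refine hp1 j i ?_
      rw [hx2]
      exact hj
    · have h4 : psi c x ∈ {z | ∃ i, Le (p i).1 z} := ⟨i, by rw [hx2]; exact Le.refl _⟩
      obtain ⟨j, hj⟩ := h.2 h4
      refine hp1 j i ?_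
      rw [hx2]
      exact hj

end Pool.Agent.X182.SF
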